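import Mathlib

set_option autoImplicit false

/-!
# Few codegrees: linear algebra

`k`-fold products of functions from a space of dimension at most `m` span a space of dimension at
most `multichoose m k`; triangular systems of functions are linearly independent, also if they are
triangular only modulo a prime.
-/

namespace Pool.Agent.K1H23.FC

open Finset
open scoped Pointwise

lemma multichoose_le_pow (m k : ℕ) : Nat.multichoose m k ≤ m ^ k := by
  induction m generalizing k with
  | zero =>
    cases k with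
    | zero => simp
    | succ k => simp
  | succ n ih =>
    induction k with
    | zero => simp
    | succ k ihk =>
      rw [Nat.multichoose_succ_succ]
      have h1 := ih (k + 1)
      have h2 : n ^ (k + 1) ≤ n * (n + 1) ^ k := by
        rw [pow_succ, mul_comm]
        exact Nat.mul_le_mul_left _ (Nat.pow_le_pow_left (Nat.le_succ n) k)
      calc Nat.multichoose n (k + 1) + Nat.multichoose (n + 1) k
          ≤ n * (n + 1) ^ k + (n + 1) ^ k := Nat.add_le_add (h1.trans h2) ihk
        _ = (n + 1) ^ (k + 1) := by ring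

section
variable {α : Type} [Finite α]

/-- `k`-fold products from a spanned space -/
lemma finrank_pow_le {m : ℕ} (b : Fin m → (α → ℝ)) (k : ℕ) :
    Module.finrank ℝ (((Submodule.span ℝ (Set.range b)) ^ k : Submodule ℝ (α → ℝ))) ≤
      Nat.multichoose m k := by
  classical
  have hsub : (Set.range b) ^ k ⊆
      Set.range (fun x : Sym (Fin m) k => ((x : Multiset (Fin m)).map b).prod) := by
    induction k with
    | zero =>
      rw [pow_zero]
      rintro x hx
      rw [Set.mem_one] at hx
      subst hx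
      exact ⟨Sym.nil, by simp [Sym.coe_nil]⟩
    | succ k ih =>
      rw [pow_succ]
      rintro x hx
      obtain ⟨y, hy, z, ⟨i, rfl⟩, rfl⟩ := Set.mem_mul.1 hx
      obtain ⟨s, rfl⟩ := ih hy
      refine ⟨i ::ₛ s, ?_⟩
      simp only [Sym.coe_cons, Multiset.map_cons, Multiset.prod_cons]
      rw [mul_comm]
  have h1 : (((Submodule.span ℝ (Set.range b)) ^ k : Submodule ℝ (α → ℝ))) ≤
      Submodule.span ℝ (Set.range (fun x : Sym (Fin m) k =>
        ((x : Multiset (Fin m)).map b).prod)) := by
    rw [Submodule.span_pow]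
    exact Submodule.span_mono hsub
  refine (Submodule.finrank_mono h1).trans ?_
  refine (finrank_range_le_card (R := ℝ) _).trans ?_
  rw [Sym.card_sym_eq_multichoose, Fintype.card_fin]

/-- the same for a space of given dimension -/
lemma finrank_pow_le' {m : ℕ} (W : Submodule ℝ (α → ℝ)) (hW : Module.finrank ℝ W ≤ m) (k : ℕ) :
    Module.finrank ℝ ((W ^ k : Submodule ℝ (α → ℝ))) ≤ Nat.multichoose m k := by
  classical
  have : Fintype α := Fintype.ofFinite α
  obtain ⟨b⟩ : Nonempty (Module.Basis (Fin (Module.finrank ℝ W)) ℝ W) :=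
    ⟨Module.finBasis ℝ W⟩
  let c : Fin m → (α → ℝ) := fun i => if h : (i : ℕ) < Module.finrank ℝ W then (b ⟨i, h⟩ : α → ℝ) else 0
  have hle : W ≤ Submodule.span ℝ (Set.range c) := by
    have h1 : W = Submodule.span ℝ (Set.range fun i => (b i : α → ℝ)) := by
      have h2 := b.span_eq
      have h3 := congrArg (Submodule.map W.subtype) h2
      rw [Submodule.map_span, Submodule.map_top, Submodule.range_subtype, ← Set.range_comp] at h3
      exact h3.symm
    rw [h1]
    refine Submodule.span_le.2 ?_
    rintro _ ⟨i, rfl⟩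
    refine Submodule.subset_span ⟨⟨i, lt_of_lt_of_le i.2 hW⟩, ?_⟩
    simp [c]
  have h4 : (W ^ k : Submodule ℝ (α → ℝ)) ≤ (Submodule.span ℝ (Set.range c)) ^ k :=
    pow_le_pow_left' hle k
  exact (Submodule.finrank_mono h4).trans (finrank_pow_le c k)

end

section
variable {α : Type}

/-- triangular systems are independent -/
lemma li_of_tri {K : Type} [Field K] {ι : Type} (e : ι → α) (F : ι → α → K) (f : ι → ℝ)
    (h1 : ∀ u, F u (e u) ≠ 0) (h0 : ∀ u v, v ≠ u → f v ≤ f u → F u (e v) = 0) :
    LinearIndependent K F := by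
  classical
  rw [linearIndependent_iff']
  intro s g hg
  by_contra hne
  push Not at hne
  obtain ⟨i, hi, hgi⟩ := hne
  obtain ⟨u, hu, hmin⟩ := (s.filter fun i => g i ≠ 0).exists_min_image f ⟨i, by simp [hi, hgi]⟩
  rw [mem_filter] at hu
  have h2 := congrFun hg (e u)
  rw [Finset.sum_apply, Finset.sum_eq_single u] at h2
  · simp only [Pi.smul_apply, smul_eq_mul, Pi.zero_apply, mul_eq_zero] at h2
    rcases h2 with h2 | h2
    · exact hu.2 h2
    · exact h1 u h2
  · intro v hv hvu
    by_cases hgv : g v = 0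
    · simp [hgv]
    · have h3 := hmin v (by simp [hv, hgv])
      rw [Pi.smul_apply, h0 v u hvu.symm h3, smul_zero]
  · intro h
    exact absurd hu.1 h

/-- systems which are triangular modulo a prime are independent -/
lemma li_of_tri_mod {ι : Type} [Finite ι] (p : ℕ) [Fact p.Prime] (e : ι → α)
    (F : ι → α → ℤ) (f : ι → ℝ)
    (h1 : ∀ u, ¬ (p : ℤ) ∣ F u (e u)) (h0 : ∀ u v, v ≠ u → f v ≤ f u → (p : ℤ) ∣ F u (e v)) :
    LinearIndependent ℝ (fun u x => ((F u x : ℤ) : ℝ)) := by
  classical
  have : Fintype ι := Fintype.ofFinite ι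
  let M : Matrix ι ι ℤ := Matrix.of fun u v => F u (e v)
  have h2 : LinearIndependent (ZMod p) (fun u (v : ι) => ((F u (e v) : ℤ) : ZMod p)) := by
    refine li_of_tri (K := ZMod p) (α := ι) id _ f ?_ ?_
    · intro u h
      exact h1 u ((ZMod.intCast_zmod_eq_zero_iff_dvd _ _).1 h)
    · intro u v hvu hf
      exact (ZMod.intCast_zmod_eq_zero_iff_dvd _ _).2 (h0 u v hvu hf)
  have h3 : (M.map (Int.castRingHom (ZMod p))).det ≠ 0 := by
    have h4 : LinearIndependent (ZMod p) (M.map (Int.castRingHom (ZMod p))).row := h2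
    have h5 := Matrix.linearIndependent_rows_iff_isUnit.1 h4
    exact ((Matrix.isUnit_iff_isUnit_det _).1 h5).ne_zero
  have h6 : M.det ≠ 0 := by
    intro h
    apply h3
    have := RingHom.map_det (Int.castRingHom (ZMod p)) M
    rw [h, map_zero] at this
    exact this.symm
  have h7 : (M.map (Int.castRingHom ℝ)).det ≠ 0 := by
    intro h
    apply h6
    have := RingHom.map_det (Int.castRingHom ℝ) M
    have h8 : ((Int.castRingHom ℝ).mapMatrix M).det = 0 := h
    rw [h8] at this
    have h9 : ((M.det : ℤ) : ℝ) = 0 := this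
    exact_mod_cast h9
  have h10 : LinearIndependent ℝ (M.map (Int.castRingHom ℝ)).row := by
    rw [Matrix.linearIndependent_rows_iff_isUnit, Matrix.isUnit_iff_isUnit_det]
    exact isUnit_iff_ne_zero.2 h7
  -- functions on `α`
  let res : (α → ℝ) →ₗ[ℝ] (ι → ℝ) := LinearMap.funLeft ℝ ℝ e
  refine LinearIndependent.of_comp res ?_
  exact h10

/-- divisibility of binomial coefficients -/
lemma dvd_choose {p : ℕ} (hp : p.Prime) (a x : ℕ) (hx : ¬ p ^ a ∣ x) :
    p ∣ (x + p ^ a - 1).choose (p ^ a - 1) := by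
  by_contra h
  have hq : 0 < p ^ a := pow_pos hp.pos a
  have h1 : (x + p ^ a) * (x + p ^ a - 1).choose (p ^ a - 1) = (x + p ^ a).choose (p ^ a) * p ^ a := by
    have h2 := Nat.add_one_mul_choose_eq (x + p ^ a - 1) (p ^ a - 1)
    have e1 : x + p ^ a - 1 + 1 = x + p ^ a := by omega
    have e2 : p ^ a - 1 + 1 = p ^ a := by omega
    rw [e1, e2] at h2
    exact h2
  have h3 : p ^ a ∣ (x + p ^ a) * (x + p ^ a - 1).choose (p ^ a - 1) := by
    rw [h1]
    exact dvd_mul_left _ _
  have h4 : Nat.Coprime (p ^ a) ((x + p ^ a - 1).choose (p ^ a - 1)) :=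
    Nat.Coprime.pow_left a ((Nat.Prime.coprime_iff_not_dvd hp).2 h)
  have h5 : p ^ a ∣ x + p ^ a := h4.dvd_of_dvd_mul_right h3
  exact hx ((Nat.dvd_add_left (dvd_refl _)).1 h5)

end

end Pool.Agent.K1H23.FC
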