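import Pool.Agent.K1H23.FC1

set_option autoImplicit false

/-!
# Few codegrees: the space of functions spanned by the rows of the adjacency matrix and 1
-/

namespace Pool.Agent.K1H23.FC

open Finset
open scoped Classical

variable {V : Type} [Fintype V]

/-- adjacency indicator -/
noncomputable def ad (G : SimpleGraph V) (u v : V) : ℝ := if G.Adj u v then 1 else 0

/-- rank -/
noncomputable def rk (G : SimpleGraph V) : ℕ := (G.adjMatrix ℝ).rank

/-- rows and constants -/
noncomputable def WW (G : SimpleGraph V) : Submodule ℝ (V → ℝ) :=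
  Submodule.span ℝ (Set.range fun u => ad G u) ⊔ Submodule.span ℝ {1}

lemma ad_comm (G : SimpleGraph V) (u v : V) : ad G u v = ad G v u := by
  unfold ad
  simp only [G.adj_comm]

lemma finrank_WW (G : SimpleGraph V) : Module.finrank ℝ (WW G) ≤ rk G + 1 := by
  have h1 : Module.finrank ℝ (Submodule.span ℝ (Set.range fun u => ad G u)) = rk G := by
    unfold rk
    rw [Matrix.rank_eq_finrank_span_row]
    congr 2
  have h2 : Module.finrank ℝ (Submodule.span ℝ ({1} : Set (V → ℝ))) ≤ 1 := by
    refine (finrank_span_le_card ({1} : Set (V → ℝ))).trans ?_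
    simp
  unfold WW
  refine (Submodule.finrank_add_le_finrank_add_finrank _ _).trans ?_
  rw [h1]
  omega

lemma one_mem (G : SimpleGraph V) : (1 : V → ℝ) ∈ WW G :=
  Submodule.mem_sup_right (Submodule.mem_span_singleton_self _)

lemma const_mem (G : SimpleGraph V) (c : ℝ) : (fun _ => c : V → ℝ) ∈ WW G := by
  have h := (WW G).smul_mem c (one_mem G)
  have e : (c • (1 : V → ℝ)) = fun _ => c := by
    funext v
    simp
  rwa [e] at h

lemma row_mem (G : SimpleGraph V) (u : V) : ad G u ∈ WW G :=
  Submodule.mem_sup_left (Submodule.subset_span ⟨u, rfl⟩)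

/-- affine functions of the row of `v` -/
lemma aff_mem (G : SimpleGraph V) (c : ℝ) (X : V → ℝ) :
    (fun v => c + ∑ x, X x * ad G v x) ∈ WW G := by
  have h1 : (fun v => ∑ x, X x * ad G v x) ∈ WW G := by
    have e : (fun v => ∑ x, X x * ad G v x) = ∑ x, X x • ad G x := by
      funext v
      rw [Finset.sum_apply]
      refine Finset.sum_congr rfl fun x _ => ?_
      rw [Pi.smul_apply, smul_eq_mul, ad_comm]
    rw [e]
    exact Submodule.sum_mem _ fun x _ => (WW G).smul_mem _ (row_mem G x)
  exact (WW G).add_mem (const_mem G c) h1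

lemma nonadj_mem (G : SimpleGraph V) (u : V) : (fun v => 1 - ad G u v) ∈ WW G :=
  (WW G).sub_mem (const_mem G 1) (row_mem G u)

lemma pow_mono (G : SimpleGraph V) {j k : ℕ} (h : j ≤ k) : (WW G) ^ j ≤ (WW G) ^ k :=
  pow_le_pow_right' (Submodule.one_le.2 (one_mem G)) h

lemma prod_mem (G : SimpleGraph V) {ι : Type} (s : Finset ι) (f : ι → V → ℝ)
    (h : ∀ i ∈ s, f i ∈ WW G) : (fun v => ∏ i ∈ s, f i v) ∈ (WW G) ^ s.card := by
  induction s using Finset.induction_on with
  | empty =>
    simp only [prod_empty, card_empty, pow_zero]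
    exact Submodule.one_le.1 le_rfl
  | insert a s ha ih =>
    rw [card_insert_of_notMem ha, pow_succ']
    have e : (fun v => ∏ i ∈ insert a s, f i v) = f a * fun v => ∏ i ∈ s, f i v := by
      funext v
      rw [Pi.mul_apply, prod_insert ha]
    rw [e]
    exact Submodule.mul_mem_mul (h a (mem_insert_self a s))
      (ih fun i hi => h i (mem_insert_of_mem hi))

/-- the bound -/
lemma card_le (G : SimpleGraph V) (k : ℕ) (S : Finset V) (F : V → V → ℝ)
    (hF : ∀ u ∈ S, F u ∈ (WW G) ^ k) (hli : LinearIndependent ℝ (fun u : S => F u)) :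
    S.card ≤ (rk G + k).choose k := by
  have h1 : Module.finrank ℝ (Submodule.span ℝ (Set.range fun u : S => F u)) = S.card := by
    rw [finrank_span_eq_card hli, Fintype.card_coe]
  have h2 : Submodule.span ℝ (Set.range fun u : S => F u) ≤ (WW G) ^ k := by
    refine Submodule.span_le.2 ?_
    rintro _ ⟨u, rfl⟩
    exact hF u u.2
  have h3 := Submodule.finrank_mono h2
  rw [h1] at h3
  refine h3.trans ((finrank_pow_le' (WW G) (finrank_WW G) k).trans (le_of_eq ?_))
  rw [Nat.multichoose_eq]
  congr 1
  omega

/-- the number of neighbourhoods and the chromatic number are at most `N` -/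
def Bnd (G : SimpleGraph V) (N : ℕ) : Prop :=
  (Set.range G.neighborSet).ncard ≤ N ∧ G.Colorable N

lemma colorable (G : SimpleGraph V) : G.Colorable (Set.range G.neighborSet).ncard := by
  have : Fintype (Set.range G.neighborSet) := Fintype.ofFinite _
  let c : G.Coloring (Set.range G.neighborSet) := SimpleGraph.Coloring.mk
    (fun v => ⟨G.neighborSet v, v, rfl⟩) (by
      intro u v huv h
      have h1 : G.neighborSet u = G.neighborSet v := congrArg Subtype.val h
      have h2 : v ∈ G.neighborSet u := huv
      rw [h1] at h2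
      exact G.loopless.irrefl v h2)
  have h := c.colorable
  rw [Set.ncard_eq_toFinset_card', Set.toFinset_card]
  exact h

lemma bnd_of (G : SimpleGraph V) (t B : ℕ) (C : Fin t → Set V) (hC : ∀ v, ∃ i, v ∈ C i)
    (h : ∀ i, ∀ S : Finset V, (∀ u ∈ S, u ∈ C i) →
      (∀ u ∈ S, ∀ v ∈ S, G.neighborSet u = G.neighborSet v → u = v) → S.card ≤ B) :
    Bnd G (t * B) := by
  have key : (Set.range G.neighborSet).ncard ≤ t * B := by
    have h1 : Set.range G.neighborSet ⊆ ⋃ i : Fin t, G.neighborSet '' (C i) := by
      rintro _ ⟨v, rfl⟩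
      obtain ⟨i, hi⟩ := hC v
      exact Set.mem_iUnion.2 ⟨i, v, hi, rfl⟩
    have h2 : ∀ i, (G.neighborSet '' (C i)).ncard ≤ B := by
      intro i
      have hch : ∀ s : (G.neighborSet '' (C i)), ∃ v ∈ C i, G.neighborSet v = s.1 := fun s => s.2
      choose g hg1 hg2 using hch
      have hinj : Function.Injective g := by
        intro a b hab
        apply Subtype.ext
        rw [← hg2 a, ← hg2 b, hab]
      have : Fintype (G.neighborSet '' (C i)) := Fintype.ofFinite _
      have h3 := h i (Finset.univ.image g) (by
        intro u hu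
        obtain ⟨s, -, rfl⟩ := mem_image.1 hu
        exact hg1 s) (by
        intro u hu v hv huv
        obtain ⟨a, -, rfl⟩ := mem_image.1 hu
        obtain ⟨b, -, rfl⟩ := mem_image.1 hv
        rw [hg2, hg2] at huv
        rw [Subtype.ext huv])
      rw [card_image_of_injective _ hinj, card_univ] at h3
      rw [Set.ncard_eq_toFinset_card', Set.toFinset_card]
      exact h3
    have h4 : (⋃ i : Fin t, G.neighborSet '' (C i)).ncard ≤ ∑ i : Fin t, (G.neighborSet '' (C i)).ncard := by
      have h5 : ∀ s : Finset (Fin t), (⋃ i ∈ s, G.neighborSet '' (C i)).ncard ≤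
          ∑ i ∈ s, (G.neighborSet '' (C i)).ncard := by
        intro s
        induction s using Finset.induction_on with
        | empty => simp
        | insert a s ha ih =>
          rw [Finset.set_biUnion_insert, sum_insert ha]
          exact (Set.ncard_union_le _ _).trans (Nat.add_le_add_left ih _)
      have h6 := h5 Finset.univ
      simpa using h6
    refine (Set.ncard_le_ncard h1 (Set.toFinite _)).trans (h4.trans ?_)
    refine (Finset.sum_le_sum fun i _ => h2 i).trans (le_of_eq ?_)
    simp
  exact ⟨key, (colorable G).mono key⟩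

/-- weight of the common neighbours -/
noncomputable def codeg (G : SimpleGraph V) (w : V → ℝ) (u v : V) : ℝ :=
  ∑ x, if G.Adj u x ∧ G.Adj v x then w x else 0

/-- weight of the symmetric difference of the neighbourhoods -/
noncomputable def sdiff (G : SimpleGraph V) (w : V → ℝ) (u v : V) : ℝ :=
  ∑ x, if (G.Adj u x ↔ G.Adj v x) then 0 else w x

/-- weight of the private neighbours -/
noncomputable def priv (G : SimpleGraph V) (w : V → ℕ) (u v : V) : ℕ :=
  ∑ x, if G.Adj u x ∧ ¬ G.Adj v x then w x else 0

lemma codeg_mem (G : SimpleGraph V) (w : V → ℝ) (u : V) : codeg G w u ∈ WW G := by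
  have e : codeg G w u = fun v => 0 + ∑ x, (w x * ad G u x) * ad G v x := by
    funext v
    rw [zero_add]
    unfold codeg ad
    refine Finset.sum_congr rfl fun x _ => ?_
    by_cases h1 : G.Adj u x <;> by_cases h2 : G.Adj v x <;> simp [h1, h2]
  rw [e]
  exact aff_mem G _ _

lemma sdiff_mem (G : SimpleGraph V) (w : V → ℝ) (u : V) : sdiff G w u ∈ WW G := by
  have e : sdiff G w u = fun v => (∑ x, w x * ad G u x) + ∑ x, (w x * (1 - 2 * ad G u x)) * ad G v x := by
    funext v
    unfold sdiff ad
    rw [← Finset.sum_add_distrib]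
    refine Finset.sum_congr rfl fun x _ => ?_
    by_cases h1 : G.Adj u x <;> by_cases h2 : G.Adj v x <;> simp [h1, h2] <;> ring
  rw [e]
  exact aff_mem G _ _

lemma priv_mem (G : SimpleGraph V) (w : V → ℕ) (u : V) :
    (fun v => ((priv G w u v : ℕ) : ℝ)) ∈ WW G := by
  have e : (fun v => ((priv G w u v : ℕ) : ℝ)) =
      fun v => (∑ x, (w x : ℝ) * ad G u x) + ∑ x, (-((w x : ℝ) * ad G u x)) * ad G v x := by
    funext v
    unfold priv ad
    rw [← Finset.sum_add_distrib, Nat.cast_sum]
    refine Finset.sum_congr rfl fun x _ => ?_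
    by_cases h1 : G.Adj u x <;> by_cases h2 : G.Adj v x <;> simp [h1, h2]
  rw [e]
  exact aff_mem G _ _

lemma nbr_eq (G : SimpleGraph V) {u v : V} (h : ∀ x, G.Adj u x ↔ G.Adj v x) :
    G.neighborSet u = G.neighborSet v := by
  ext x
  exact h x

/-- part 1 -/
theorem main_codeg (G : SimpleGraph V) (t s : ℕ) (C : Fin t → Set V) (hC : ∀ v, ∃ i, v ∈ C i)
    (w : Fin t → V → ℝ) (hw : ∀ i x, 0 < w i x)
    (h : ∀ i, ∀ u ∈ C i, ∃ L : Finset ℝ, L.card ≤ s ∧ ∀ v ∈ C i, ¬ G.Adj u v →
      G.neighborSet u ≠ G.neighborSet v → codeg G (w i) v v ≤ codeg G (w i) u u →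
      codeg G (w i) u v ∈ L) :
    Bnd G (t * (rk G + (s + 1)).choose (s + 1)) := by
  refine bnd_of G t _ C hC fun i S hS hinj => ?_
  have hch : ∀ u : V, ∃ L : Finset ℝ, u ∈ C i → (L.card ≤ s ∧ ∀ v ∈ C i, ¬ G.Adj u v →
      G.neighborSet u ≠ G.neighborSet v → codeg G (w i) v v ≤ codeg G (w i) u u →
      codeg G (w i) u v ∈ L) := by
    intro u
    by_cases hu : u ∈ C i
    · obtain ⟨L, hL⟩ := h i u hu
      exact ⟨L, fun _ => hL⟩
    · exact ⟨∅, fun h => absurd h hu⟩
  choose L hL using hch
  let F : V → V → ℝ := fun u v => (1 - ad G u v) *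
    ∏ c ∈ L u, (if c < codeg G (w i) u u then codeg G (w i) u v - c else 1)
  refine card_le G (s + 1) S F ?_ ?_
  · intro u hu
    have h1 := prod_mem G (L u)
      (fun c v => (if c < codeg G (w i) u u then codeg G (w i) u v - c else 1)) (by
        intro c _
        by_cases hc : c < codeg G (w i) u u
        · simp only [hc, if_true]
          exact (WW G).sub_mem (codeg_mem G (w i) u) (const_mem G c)
        · simp only [hc, if_false]
          exact const_mem G 1)
    have h2 : F u ∈ (WW G) ^ ((L u).card + 1) := by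
      rw [pow_succ']
      exact Submodule.mul_mem_mul (nonadj_mem G u) h1
    exact pow_mono G (Nat.succ_le_succ (hL u (hS u hu)).1) h2
  · refine li_of_tri (K := ℝ) (fun u : S => (u : V)) (fun u : S => F u)
      (fun u => codeg G (w i) u u) ?_ ?_
    · intro u
      simp only [F]
      refine mul_ne_zero ?_ (Finset.prod_ne_zero_iff.2 fun c _ => ?_)
      · have : ad G (u : V) u = 0 := by
          unfold ad
          rw [if_neg (G.loopless.irrefl _)]
        rw [this]
        norm_num
      · split_ifs with hc
        · exact (sub_pos.2 hc).ne'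
        · exact one_ne_zero
    · intro u v hvu hf
      have huv : G.neighborSet (u : V) ≠ G.neighborSet v := by
        intro hne
        exact hvu (Subtype.ext (hinj u u.2 v v.2 hne)).symm
      simp only [F]
      by_cases hadj : G.Adj (u : V) v
      · unfold ad
        rw [if_pos hadj]
        simp
      · have hmem := (hL u (hS u u.2)).2 v (hS v v.2) hadj huv hf
        have hlt : codeg G (w i) u v < codeg G (w i) u u := by
          by_contra hge
          rw [not_lt] at hge
          -- all neighbours of `u` are neighbours of `v`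
          have hsub : ∀ x, G.Adj (u : V) x → G.Adj (v : V) x := by
            intro x hx
            by_contra hvx
            have : codeg G (w i) u v < codeg G (w i) u u := by
              unfold codeg
              refine Finset.sum_lt_sum (fun y _ => ?_) ⟨x, mem_univ x, ?_⟩
              · by_cases h1 : G.Adj (u : V) y <;> by_cases h2 : G.Adj (v : V) y <;>
                  simp [h1, h2, (hw i y).le]
              · simp [hx, hvx, hw i x]
            exact absurd this (not_lt.2 hge)
          have hsub2 : ∀ x, G.Adj (v : V) x → G.Adj (u : V) x := by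
            intro x hx
            by_contra hux
            have : codeg G (w i) u u < codeg G (w i) v v := by
              unfold codeg
              refine Finset.sum_lt_sum (fun y _ => ?_) ⟨x, mem_univ x, ?_⟩
              · by_cases h1 : G.Adj (u : V) y
                · simp [h1, hsub y h1]
                · by_cases h2 : G.Adj (v : V) y <;> simp [h1, h2, (hw i y).le]
              · simp [hx, hux, hw i x]
            exact absurd this (not_lt.2 hf)
          exact huv (nbr_eq G fun x => ⟨hsub x, hsub2 x⟩)
        refine mul_eq_zero_of_right _ (Finset.prod_eq_zero hmem ?_)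
        rw [if_pos hlt, sub_self]

/-- part 2 -/
theorem main_sdiff (G : SimpleGraph V) (t s : ℕ) (C : Fin t → Set V) (hC : ∀ v, ∃ i, v ∈ C i)
    (w : Fin t → V → ℝ) (hw : ∀ i x, 0 < w i x) (f : Fin t → V → ℝ)
    (h : ∀ i, ∀ u ∈ C i, ∃ L : Finset ℝ, L.card ≤ s ∧ ∀ v ∈ C i, ¬ G.Adj u v →
      G.neighborSet u ≠ G.neighborSet v → f i v ≤ f i u → sdiff G (w i) u v ∈ L) :
    Bnd G (t * (rk G + (s + 1)).choose (s + 1)) := by
  refine bnd_of G t _ C hC fun i S hS hinj => ?_
  have hch : ∀ u : V, ∃ L : Finset ℝ, u ∈ C i → (L.card ≤ s ∧ ∀ v ∈ C i, ¬ G.Adj u v →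
      G.neighborSet u ≠ G.neighborSet v → f i v ≤ f i u → sdiff G (w i) u v ∈ L) := by
    intro u
    by_cases hu : u ∈ C i
    · obtain ⟨L, hL⟩ := h i u hu
      exact ⟨L, fun _ => hL⟩
    · exact ⟨∅, fun h => absurd h hu⟩
  choose L hL using hch
  let F : V → V → ℝ := fun u v => (1 - ad G u v) *
    ∏ c ∈ L u, (if c = 0 then 1 else sdiff G (w i) u v - c)
  refine card_le G (s + 1) S F ?_ ?_
  · intro u hu
    have h1 := prod_mem G (L u)
      (fun c v => (if c = 0 then 1 else sdiff G (w i) u v - c)) (by
        intro c _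
        by_cases hc : c = 0
        · simp only [hc, if_true]
          exact const_mem G 1
        · simp only [hc, if_false]
          exact (WW G).sub_mem (sdiff_mem G (w i) u) (const_mem G c))
    have h2 : F u ∈ (WW G) ^ ((L u).card + 1) := by
      rw [pow_succ']
      exact Submodule.mul_mem_mul (nonadj_mem G u) h1
    exact pow_mono G (Nat.succ_le_succ (hL u (hS u hu)).1) h2
  · refine li_of_tri (K := ℝ) (fun u : S => (u : V)) (fun u : S => F u)
      (fun u => f i u) ?_ ?_
    · intro u
      simp only [F]
      refine mul_ne_zero ?_ (Finset.prod_ne_zero_iff.2 fun c _ => ?_)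
      · have : ad G (u : V) u = 0 := by
          unfold ad
          rw [if_neg (G.loopless.irrefl _)]
        rw [this]
        norm_num
      · split_ifs with hc
        · exact one_ne_zero
        · have : sdiff G (w i) (u : V) u = 0 := by
            unfold sdiff
            simp
          rw [this]
          simpa using hc
    · intro u v hvu hf
      have huv : G.neighborSet (u : V) ≠ G.neighborSet v := by
        intro hne
        exact hvu (Subtype.ext (hinj u u.2 v v.2 hne)).symm
      simp only [F]
      by_cases hadj : G.Adj (u : V) v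
      · unfold ad
        rw [if_pos hadj]
        simp
      · have hmem := (hL u (hS u u.2)).2 v (hS v v.2) hadj huv hf
        have hne : sdiff G (w i) u v ≠ 0 := by
          intro h0
          apply huv
          refine nbr_eq G fun x => ?_
          by_contra hx
          have : 0 < sdiff G (w i) u v := by
            unfold sdiff
            refine Finset.sum_pos' (fun y _ => ?_) ⟨x, mem_univ x, ?_⟩
            · split_ifs
              · exact le_rfl
              · exact (hw i y).le
            · rw [if_neg hx]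
              exact hw i x
          exact this.ne' h0
        refine mul_eq_zero_of_right _ (Finset.prod_eq_zero hmem ?_)
        rw [if_neg hne, sub_self]

/-- part 3 -/
theorem main_mod (G : SimpleGraph V) (t p a : ℕ) (hp : p.Prime) (C : Fin t → Set V)
    (hC : ∀ v, ∃ i, v ∈ C i) (w : Fin t → V → ℕ) (f : Fin t → V → ℝ)
    (h : ∀ i, ∀ u ∈ C i, ∀ v ∈ C i, ¬ G.Adj u v → G.neighborSet u ≠ G.neighborSet v →
      f i v ≤ f i u → ¬ p ^ a ∣ priv G (w i) u v) :
    Bnd G (t * (rk G + p ^ a).choose (p ^ a)) := by
  have : Fact p.Prime := ⟨hp⟩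
  have hq : 0 < p ^ a := pow_pos hp.pos a
  refine bnd_of G t _ C hC fun i S hS hinj => ?_
  let M : V → V → ℤ := fun u v => (if G.Adj u v then 0 else 1) *
    (((priv G (w i) u v + p ^ a - 1).choose (p ^ a - 1) : ℕ) : ℤ)
  refine card_le G (p ^ a) S (fun u v => ((M u v : ℤ) : ℝ)) ?_ ?_
  · intro u hu
    have h1 := prod_mem G (Finset.range (p ^ a - 1))
      (fun j v => ((priv G (w i) u v : ℕ) : ℝ) + (1 + j)) (by
        intro j _
        exact (WW G).add_mem (priv_mem G (w i) u) (const_mem G (1 + j)))
    rw [card_range] at h1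
    have h2 : (fun v => (1 - ad G u v) * ∏ j ∈ Finset.range (p ^ a - 1),
        (((priv G (w i) u v : ℕ) : ℝ) + (1 + j))) ∈ (WW G) ^ (p ^ a) := by
      have e : p ^ a = (p ^ a - 1) + 1 := by omega
      rw [e, pow_succ']
      rw [← e]
      exact Submodule.mul_mem_mul (nonadj_mem G u) h1
    have h3 := ((WW G) ^ (p ^ a)).smul_mem ((((p ^ a - 1).factorial : ℕ) : ℝ)⁻¹) h2
    have e : (fun v => ((M u v : ℤ) : ℝ)) = ((((p ^ a - 1).factorial : ℕ) : ℝ)⁻¹) •
        (fun v => (1 - ad G u v) * ∏ j ∈ Finset.range (p ^ a - 1),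
        (((priv G (w i) u v : ℕ) : ℝ) + (1 + j))) := by
      funext v
      rw [Pi.smul_apply, smul_eq_mul]
      have h4 := Nat.ascFactorial_eq_factorial_mul_choose (priv G (w i) u v) (p ^ a - 1)
      rw [Nat.ascFactorial_eq_prod_range] at h4
      have h5 : (∏ j ∈ Finset.range (p ^ a - 1), (((priv G (w i) u v : ℕ) : ℝ) + (1 + j))) =
          (((p ^ a - 1).factorial : ℕ) : ℝ) *
            (((priv G (w i) u v + (p ^ a - 1)).choose (p ^ a - 1) : ℕ) : ℝ) := by
        rw [← Nat.cast_mul, ← h4, Nat.cast_prod]
        refine Finset.prod_congr rfl fun j _ => ?_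
        push_cast
        ring
      have e1 : priv G (w i) u v + p ^ a - 1 = priv G (w i) u v + (p ^ a - 1) := by omega
      have hfac : (((p ^ a - 1).factorial : ℕ) : ℝ) ≠ 0 := by
        exact_mod_cast (Nat.factorial_ne_zero _)
      simp only [M]
      rw [h5, e1]
      unfold ad
      push_cast
      by_cases hadj : G.Adj u v
      · simp [hadj]
      · simp only [hadj, if_false]
        field_simp
        ring
    rw [e]
    exact h3
  · refine li_of_tri_mod (α := V) p (fun u : S => (u : V)) (fun u : S => M u)
      (fun u => f i u) ?_ ?_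
    · intro u hdvd
      simp only [M] at hdvd
      have e0 : priv G (w i) (u : V) u = 0 := by
        unfold priv
        refine Finset.sum_eq_zero fun x _ => ?_
        rw [if_neg]
        tauto
      rw [if_neg (G.loopless.irrefl _), e0, zero_add, Nat.choose_self, one_mul] at hdvd
      have := Int.natCast_dvd_natCast.1 hdvd
      exact hp.one_lt.ne' (Nat.dvd_one.1 this)
    · intro u v hvu hf
      have huv : G.neighborSet (u : V) ≠ G.neighborSet v := by
        intro hne
        exact hvu (Subtype.ext (hinj u u.2 v v.2 hne)).symm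
      simp only [M]
      by_cases hadj : G.Adj (u : V) v
      · rw [if_pos hadj, zero_mul]
        exact dvd_zero _
      · rw [if_neg hadj, one_mul]
        exact Int.natCast_dvd_natCast.2 (dvd_choose hp a _
          (h i u (hS u u.2) v (hS v v.2) hadj huv hf))

end Pool.Agent.K1H23.FC
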