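import Pool.Agent.K1H23.FC2

set_option autoImplicit false

/-!
# Few codegrees: residues modulo a prime, orbits of pairs, logarithmic form
-/

namespace Pool.Agent.K1H23.FC

open Finset
open scoped Classical

variable {V : Type} [Fintype V]

lemma codeg_nat (G : SimpleGraph V) (w : V → ℕ) (u v : V) :
    codeg G (fun x => (w x : ℝ)) u v =
      ((∑ x, if G.Adj u x ∧ G.Adj v x then w x else 0 : ℕ) : ℝ) := by
  unfold codeg
  rw [Nat.cast_sum]
  refine Finset.sum_congr rfl fun x _ => ?_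
  split_ifs <;> simp

/-- residues modulo a prime -/
theorem main_res (G : SimpleGraph V) (t s p : ℕ) (hp : p.Prime) (C : Fin t → Set V)
    (hC : ∀ v, ∃ i, v ∈ C i) (w : Fin t → V → ℕ) (f : Fin t → V → ℝ)
    (h : ∀ i, ∀ u ∈ C i, ∃ L : Finset (ZMod p), L.card ≤ s ∧
      ((∑ x, if G.Adj u x ∧ G.Adj u x then w i x else 0 : ℕ) : ZMod p) ∉ L ∧
      ∀ v ∈ C i, ¬ G.Adj u v → G.neighborSet u ≠ G.neighborSet v → f i v ≤ f i u →
      ((∑ x, if G.Adj u x ∧ G.Adj v x then w i x else 0 : ℕ) : ZMod p) ∈ L) :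
    Bnd G (t * (rk G + (s + 1)).choose (s + 1)) := by
  have : Fact p.Prime := ⟨hp⟩
  refine bnd_of G t _ C hC fun i S hS hinj => ?_
  have hch : ∀ u : V, ∃ L : Finset (ZMod p), u ∈ C i → (L.card ≤ s ∧
      ((∑ x, if G.Adj u x ∧ G.Adj u x then w i x else 0 : ℕ) : ZMod p) ∉ L ∧
      ∀ v ∈ C i, ¬ G.Adj u v → G.neighborSet u ≠ G.neighborSet v → f i v ≤ f i u →
      ((∑ x, if G.Adj u x ∧ G.Adj v x then w i x else 0 : ℕ) : ZMod p) ∈ L) := by
    intro u
    by_cases hu : u ∈ C i
    · obtain ⟨L, hL⟩ := h i u hu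
      exact ⟨L, fun _ => hL⟩
    · exact ⟨∅, fun h => absurd h hu⟩
  choose L hL using hch
  let cd : V → V → ℤ := fun u v => ((∑ x, if G.Adj u x ∧ G.Adj v x then w i x else 0 : ℕ) : ℤ)
  let M : V → V → ℤ := fun u v => (if G.Adj u v then 0 else 1) *
    ∏ c ∈ L u, (cd u v - (c.val : ℤ))
  have hcast : ∀ (u v : V) (c : ZMod p), ((cd u v - (c.val : ℤ) : ℤ) : ZMod p) =
      ((∑ x, if G.Adj u x ∧ G.Adj v x then w i x else 0 : ℕ) : ZMod p) - c := by
    intro u v c
    simp only [cd]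
    push_cast
    rw [ZMod.natCast_zmod_val]
  refine card_le G (s + 1) S (fun u v => ((M u v : ℤ) : ℝ)) ?_ ?_
  · intro u hu
    have h1 := prod_mem G (L u)
      (fun c v => codeg G (fun x => (w i x : ℝ)) u v - (c.val : ℝ)) (by
        intro c _
        exact (WW G).sub_mem (codeg_mem G _ u) (const_mem G _))
    have h2 : (fun v => (1 - ad G u v) * ∏ c ∈ L u,
        (codeg G (fun x => (w i x : ℝ)) u v - (c.val : ℝ))) ∈ (WW G) ^ ((L u).card + 1) := by
      rw [pow_succ']
      exact Submodule.mul_mem_mul (nonadj_mem G u) h1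
    have h3 := pow_mono G (Nat.succ_le_succ (hL u (hS u hu)).1) h2
    have e : (fun v => ((M u v : ℤ) : ℝ)) = (fun v => (1 - ad G u v) * ∏ c ∈ L u,
        (codeg G (fun x => (w i x : ℝ)) u v - (c.val : ℝ))) := by
      funext v
      simp only [M, cd, codeg_nat]
      unfold ad
      push_cast
      by_cases hadj : G.Adj u v
      · simp [hadj]
      · simp [hadj]
    rw [e]
    exact h3
  · refine li_of_tri_mod (α := V) p (fun u : S => (u : V)) (fun u : S => M u)
      (fun u => f i u) ?_ ?_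
    · intro u hdvd
      have h1 := (ZMod.intCast_zmod_eq_zero_iff_dvd _ _).2 hdvd
      simp only [M] at h1
      rw [if_neg (G.loopless.irrefl _), one_mul, Int.cast_prod, Finset.prod_eq_zero_iff] at h1
      obtain ⟨c, hc, h2⟩ := h1
      rw [hcast, sub_eq_zero] at h2
      apply (hL u (hS u u.2)).2.1
      rw [h2]
      exact hc
    · intro u v hvu hf
      have huv : G.neighborSet (u : V) ≠ G.neighborSet v := by
        intro hne
        exact hvu (Subtype.ext (hinj u u.2 v v.2 hne)).symm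
      simp only [M]
      by_cases hadj : G.Adj (u : V) v
      · rw [if_pos hadj, zero_mul]
        exact dvd_zero _
      · rw [if_neg hadj, one_mul]
        apply (ZMod.intCast_zmod_eq_zero_iff_dvd _ _).1
        rw [Int.cast_prod]
        refine Finset.prod_eq_zero ((hL u (hS u u.2)).2.2 v (hS v v.2) hadj huv hf) ?_
        rw [hcast, sub_self]

lemma codeg_comm (G : SimpleGraph V) (w : V → ℝ) (u v : V) : codeg G w u v = codeg G w v u := by
  unfold codeg
  simp only [and_comm]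

lemma codeg_iso (G : SimpleGraph V) (φ : G ≃g G) (u v : V) :
    codeg G (fun _ => 1) (φ u) (φ v) = codeg G (fun _ => 1) u v := by
  unfold codeg
  rw [← Equiv.sum_comp φ.toEquiv]
  refine Finset.sum_congr rfl fun x _ => ?_
  have e1 : G.Adj (φ u) (φ.toEquiv x) ↔ G.Adj u x := φ.map_adj_iff
  have e2 : G.Adj (φ v) (φ.toEquiv x) ↔ G.Adj v x := φ.map_adj_iff
  simp only [e1, e2]

/-- few orbits of pairs -/
theorem main_orb (G : SimpleGraph V) (t s : ℕ) (C : Fin t → Set V) (hC : ∀ v, ∃ i, v ∈ C i)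
    (h : ∀ i, ∃ a b : Fin s → V, ∀ u ∈ C i, ∀ v ∈ C i, ¬ G.Adj u v →
      G.neighborSet u ≠ G.neighborSet v →
      ∃ (j : Fin s) (φ : G ≃g G), (φ u = a j ∧ φ v = b j) ∨ (φ u = b j ∧ φ v = a j)) :
    Bnd G (t * (rk G + (s + 1)).choose (s + 1)) := by
  refine main_codeg G t s C hC (fun _ _ => 1) (fun _ _ => one_pos) fun i u hu => ?_
  obtain ⟨a, b, hab⟩ := h i
  refine ⟨Finset.univ.image fun j => codeg G (fun _ => 1) (a j) (b j), ?_, ?_⟩
  · refine card_image_le.trans ?_
    simp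
  · intro v hv hadj hne _
    obtain ⟨j, φ, h1 | h1⟩ := hab u hu v hv hadj hne
    · refine mem_image.2 ⟨j, mem_univ _, ?_⟩
      rw [← h1.1, ← h1.2, codeg_iso]
    · refine mem_image.2 ⟨j, mem_univ _, ?_⟩
      rw [← h1.1, ← h1.2, codeg_iso, codeg_comm]

lemma codeg_one (G : SimpleGraph V) (u v : V) :
    codeg G (fun _ => 1) u v = ((G.commonNeighbors u v).ncard : ℝ) := by
  unfold codeg
  rw [Finset.sum_ite, Finset.sum_const_zero, add_zero, Finset.sum_const, nsmul_eq_mul, mul_one]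
  congr 1
  rw [Set.ncard_eq_toFinset_card']
  congr 1
  ext x
  simp [SimpleGraph.mem_commonNeighbors]

/-- two codegrees -/
theorem main_two (G : SimpleGraph V) (m : ℕ)
    (h : ∀ u v, u ≠ v → ¬ G.Adj u v → (G.commonNeighbors u v).ncard = 0 ∨
      (G.commonNeighbors u v).ncard = m) :
    Bnd G ((rk G + 3).choose 3) := by
  have h1 := main_codeg G 1 2 (fun _ => Set.univ) (fun v => ⟨0, trivial⟩) (fun _ _ => 1)
    (fun _ _ => one_pos) (fun i u _ => ⟨{0, (m : ℝ)}, card_le_two, fun v _ hadj hne _ => by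
      have huv : u ≠ v := by
        rintro rfl
        exact hne rfl
      rw [codeg_one]
      rcases h u v huv hadj with h2 | h2
      · rw [h2]; simp
      · rw [h2]; simp⟩)
  rw [one_mul] at h1
  exact h1

/-- logarithmic form -/
theorem log_form (G : SimpleGraph V) (t k : ℕ) (ht : 1 ≤ t)
    (h : Bnd G (t * (rk G + k).choose k)) :
    Real.log (G.chromaticNumber.toNat : ℝ) ≤ Real.log t + k * Real.log (rk G + 1) := by
  have h1 : G.chromaticNumber ≤ (t * (rk G + k).choose k : ℕ) := h.2.chromaticNumber_le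
  have h2 : G.chromaticNumber.toNat ≤ t * (rk G + k).choose k := by
    have := ENat.toNat_le_toNat h1 (ENat.natCast_ne_top _)
    simpa using this
  have h3 : (rk G + k).choose k ≤ (rk G + 1) ^ k := by
    have h4 := multichoose_le_pow (rk G + 1) k
    rw [Nat.multichoose_eq] at h4
    have e : rk G + 1 + k - 1 = rk G + k := by omega
    rwa [e] at h4
  have h5 : G.chromaticNumber.toNat ≤ t * (rk G + 1) ^ k := h2.trans (Nat.mul_le_mul_left _ h3)
  have ht0 : (0 : ℝ) < t := by exact_mod_cast ht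
  have hr0 : (0 : ℝ) < (rk G : ℝ) + 1 := by positivity
  have h6 : Real.log t + k * Real.log (rk G + 1) = Real.log ((t : ℝ) * ((rk G : ℝ) + 1) ^ k) := by
    rw [Real.log_mul ht0.ne' (pow_pos hr0 k).ne', Real.log_pow]
  rw [h6]
  rcases Nat.eq_zero_or_pos G.chromaticNumber.toNat with h0 | h0
  · rw [h0, Nat.cast_zero, Real.log_zero]
    apply Real.log_nonneg
    have h7 : (1 : ℝ) ≤ t := by exact_mod_cast ht
    have h8 : (1 : ℝ) ≤ ((rk G : ℝ) + 1) ^ k := one_le_pow₀ (by linarith [Nat.cast_nonneg (α := ℝ) (rk G)])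
    nlinarith
  · apply Real.log_le_log
    · exact_mod_cast h0
    · exact_mod_cast h5

end Pool.Agent.K1H23.FC
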